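import Pool.Agent.N625.PT.X8
import Pool.Agent.Run7.h672.XC.X7
import Pool.Agent.Run7.h414.DP.XR

/-!
# Goldbach representations of random multiples of a small primorial, one prime in an arbitrary dense set of primes (for example the
# primes `p` with `π(p)` prime), for random integers with determinantal digits

The digits of the random integer `v` are given by a determinantal random set `S` of positions (a determinantal point process
with an arbitrary Hermitian kernel): the digit number `i` is `y i` if `i ∈ S` and `x i ≠ y i` otherwise. Examples (their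
existence is not used and not formalised): the edges of a uniform spanning tree of a graph with `k` edges; stationary
determinantal processes with any symbol which is not almost everywhere `0` or almost everywhere `1` (for example the discrete
sine process with any density); independent digits.

Definitions used (in `Pool.Agent.Run7.h414.DP.Law` and `Pool.Agent.Run7.h414.DP.Fam`): `DetLaw`, `GoodPos`, `DetDigits`
(used with `t = 0`: `0 ≤ p v ≤ μ v` with the law `μ` of an integer with determinantal digits).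

Method: the characteristic function is `det (1 + D A)`; the inequality `|det N|² ≤ exp (tr N* N - k)` for
`N = 1 + B D B*`, `A = B* B`, bounds it by `exp (- E)` with an energy `E` which is at least a constant times the number of
the places where the frequency is far from the rational numbers with small denominators. With this input the sieve and the
circle method of the starting library for exchangeable blocks (`Pool.Agent.N625.PT`, in the form for classes of laws of
`Pool.Agent.Run7.h672.XC`) go through.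
-/

set_option autoImplicit false

open Finset
open Pool.Agent.Run7.h414.DP (DC DC_sum DC_nonneg DetDigits fam_dc dc_rcls)

namespace Pool.Agent.Results.MP_5d7b92_nt.DeterminantalMultiples

/-- the product of `1 - 1/q` over the primes `q ≤ y` -/
noncomputable def V (y : ℕ) : ℝ := ∏ q ∈ (Icc 1 y).filter Nat.Prime, (1 - 1 / (q : ℝ))

/-- the primes `p ≤ x` such that `π(p)` is prime -/
noncomputable def PP (x : ℕ) : Finset ℕ := (Icc 1 x).filter (fun p => p.Prime ∧ (Nat.primeCounting p).Prime)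

/-- the multiple of the product of the primes `≤ y` given by the integers `h` and `c + κ v` -/
def Nv (y h : ℕ) (c κ : ℤ) (v : ℕ) : ℤ := ((primorial y * h : ℕ) : ℤ) * (c + κ * v)

/-- the `u ∈ S` such that `n - u` is prime -/
def Rep (S : Finset ℕ) (n : ℤ) : Finset ℕ := S.filter (fun u : ℕ => (n - u).toNat.Prime)

/-- the law itself -/
theorem main : ∀ b L : ℕ, 2 ≤ b → ∀ η : ℝ, 0 < η → ∀ κ : ℤ, κ ≠ 0 →
    ∀ (B J A C : ℕ) (ε : ℝ), 0 < ε → ε ≤ 1 → ∃ K₀ : ℕ, ∀ K₁ : ℕ, ∃ k₀ : ℕ, ∀ k : ℕ, k₀ ≤ k →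
    ∀ p : ℕ → ℝ, DC b L η k p → ∀ y : ℕ, K₀ * Real.log k ≤ y → y ≤ K₁ * Real.log k →
    ∀ c : ℤ, |c| ≤ B * (b : ℤ) ^ k → ∀ h : ℕ, 1 ≤ h → h ≤ k ^ J → ∀ X : ℕ, b ^ k ≤ X * k ^ C → X ≤ b ^ k * k ^ C →
      (∀ S : Finset ℕ, S ⊆ Icc 1 X → (∀ q ∈ S, q.Prime) → (X : ℝ) ≤ S.card * (k : ℝ) ^ A →
        ∑ v ∈ range (b ^ k), (if (X : ℤ) < Nv y h c κ v ∧ ((Rep S (Nv y h c κ v)).card : ℝ) <
          (1 - ε) * (S.card / (V y * (k * Real.log b))) then p v else 0) ≤ ε) ∧
      (X : ℝ) / (8 * Real.log X ^ 2) ≤ ((PP X).card : ℝ) ∧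
      ∑ v ∈ range (b ^ k), (if (X : ℤ) < Nv y h c κ v ∧ ((Rep (PP X) (Nv y h c κ v)).card : ℝ) <
          (1 - ε) * ((PP X).card / (V y * (k * Real.log b))) then p v else 0) ≤ ε := by
  classical
  intro b L hb η hη κ hκ B J A C ε hε hε1
  have hcls := dc_rcls b L hb η hη
  obtain ⟨K₀, h0⟩ := Pool.Agent.Run7.h672.XC.dense_sum hcls κ hκ B J (max A 5) C ε hε hε1
  refine ⟨K₀, fun K₁ => ?_⟩
  obtain ⟨k₀, h0⟩ := h0 K₁
  obtain ⟨k₁, h1⟩ := Pool.Agent.N625.PT.PP_dense b C hb
  refine ⟨max (max k₀ k₁) 1, fun k hk p hp y hy1 hy2 c hc h hh1 hhJ X hX1 hX2 => ?_⟩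
  have b0 : 1 ≤ k := by omega
  have hkr : (1 : ℝ) ≤ k := by exact_mod_cast b0
  have hflex := hp
  have main : ∀ S : Finset ℕ, S ⊆ Icc 1 X → (∀ q ∈ S, q.Prime) → (X : ℝ) ≤ S.card * (k : ℝ) ^ (max A 5) →
        ∑ v ∈ range (b ^ k), (if (X : ℤ) < Nv y h c κ v ∧ ((Rep S (Nv y h c κ v)).card : ℝ) <
          (1 - ε) * (S.card / (V y * (k * Real.log b))) then p v else 0) ≤ ε := by
    intro S hS hSp hSA
    refine le_trans (le_of_eq ?_) (h0 k (by omega) p hflex y hy1 hy2 c hc h hh1 hhJ X hX1 hX2 S hS hSp hSA)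
    apply sum_congr rfl
    intro v _
    congr!
  obtain ⟨h2, h3⟩ := h1 k (by omega) X hX1 hX2
  refine ⟨fun S hS hSp hSA => main S hS hSp (hSA.trans ?_), h2, main (PP X) (filter_subset _ _)
    (fun q hq => (mem_filter.1 hq).2.1) ?_⟩
  · apply mul_le_mul_of_nonneg_left _ (Nat.cast_nonneg _)
    exact pow_le_pow_right₀ hkr (le_max_left _ _)
  · refine h3.trans ?_
    apply mul_le_mul_of_nonneg_left _ (Nat.cast_nonneg _)
    exact pow_le_pow_right₀ hkr (le_max_right _ _)

/-- Let `b ≥ 2`, `L` and `η > 0`, and let `v < b ^ k` be the random integer with `k` determinantal digits in base `b`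
(`DetDigits b L η 0 k p`). Let `y` be between `K₀ log k` and `K₁ log k`, `M` the product of the primes `≤ y`, and `X` an
integer with `b ^ k ≤ X k ^ C`, `X ≤ b ^ k k ^ C`. Then for all `|c| ≤ B b ^ k` and all `1 ≤ h ≤ k ^ J` the random integer
`N = M h (c + κ v)` has the following properties: (1) for every set `S` of at least `X / k ^ A` primes `≤ X`, the probability
that `N > X` and that `N - q` is prime for fewer than `(1 - ε) #S / (V y log b ^ k)` elements `q` of `S` is at most `ε`;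
(2) there are at least `X / (8 log ^ 2 X)` primes `q ≤ X` with `π(q)` prime, and the conclusion of (1) holds for the set of
all of them. -/
theorem result : ∀ b L : ℕ, 2 ≤ b → ∀ η : ℝ, 0 < η → ∀ κ : ℤ, κ ≠ 0 →
    ∀ (B J A C : ℕ) (ε : ℝ), 0 < ε → ε ≤ 1 → ∃ K₀ : ℕ, ∀ K₁ : ℕ, ∃ k₀ : ℕ, ∀ k : ℕ, k₀ ≤ k →
    ∀ p : ℕ → ℝ, DetDigits b L η 0 k p → ∀ y : ℕ, K₀ * Real.log k ≤ y → y ≤ K₁ * Real.log k →
    ∀ c : ℤ, |c| ≤ B * (b : ℤ) ^ k → ∀ h : ℕ, 1 ≤ h → h ≤ k ^ J → ∀ X : ℕ, b ^ k ≤ X * k ^ C → X ≤ b ^ k * k ^ C →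
      (∀ S : Finset ℕ, S ⊆ Icc 1 X → (∀ q ∈ S, q.Prime) → (X : ℝ) ≤ S.card * (k : ℝ) ^ A →
        ∑ v ∈ range (b ^ k), (if (X : ℤ) < Nv y h c κ v ∧ ((Rep S (Nv y h c κ v)).card : ℝ) <
          (1 - ε) * (S.card / (V y * (k * Real.log b))) then p v else 0) ≤ ε) ∧
      (X : ℝ) / (8 * Real.log X ^ 2) ≤ ((PP X).card : ℝ) ∧
      ∑ v ∈ range (b ^ k), (if (X : ℤ) < Nv y h c κ v ∧ ((Rep (PP X) (Nv y h c κ v)).card : ℝ) <
          (1 - ε) * ((PP X).card / (V y * (k * Real.log b))) then p v else 0) ≤ ε := by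
  intro b L hb η hη κ hκ B J A C ε hε hε1
  obtain ⟨K₀, h⟩ := main b L hb η hη κ hκ B J A C ε hε hε1
  refine ⟨K₀, fun K₁ => ?_⟩
  obtain ⟨k₀, h⟩ := h K₁
  refine ⟨k₀, fun k hk p hp y hy1 hy2 c hc m hm1 hm2 X hX1 hX2 => ?_⟩
  obtain ⟨μ, hμ, hpμ⟩ := fam_dc hp
  have hle : ∀ v, p v ≤ μ v := fun v => by
    have h2 := (hpμ v).2
    rwa [pow_zero, one_mul] at h2
  obtain ⟨h1, h2, h3⟩ := h k hk μ hμ y hy1 hy2 c hc m hm1 hm2 X hX1 hX2
  refine ⟨fun S hS hSp hSA => le_trans (sum_le_sum fun v _ => ?_) (h1 S hS hSp hSA), h2,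
    le_trans (sum_le_sum fun v _ => ?_) h3⟩
  · split_ifs
    · exact hle v
    · exact le_rfl
  · split_ifs
    · exact hle v
    · exact le_rfl

end Pool.Agent.Results.MP_5d7b92_nt.DeterminantalMultiples
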