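import Pool.Agent.N625.PT.X8
import Pool.Agent.Run7.h927.SV.X7
import Pool.Agent.Run7.h927.SV.M

/-!
# Goldbach representations of random multiples of a small primorial, one prime in an arbitrary set: walks, nested words and random fields of digits

The random integer `v` has `k` digits in base `b`, and its digits (1) are the labels of a walk between two vertices of a
graph, which may be infinite, for example of the Cayley graph of a group (then these are the integers whose digits spell a
given element of the group; such a set can contain as few as `N ^ ε` integers below `N = b ^ k`), or (2) form a correctly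
nested word over an alphabet of opening, closing and neutral digits, or (3) form a Markov random field on an arbitrary
graph of positions of bounded degree.

Method: the exponential sums of these three kinds of distributions decay exponentially in the number of the good positions of
the frequency (starting files `Pool.Agent.N625.GW`, `Pool.Agent.N625.DY` of helper625, `Pool.Agent.N213.GF` of helper213;
put into this form in `Pool.Agent.Run7.h927.SV`). Hence the random integers are equidistributed in the classes modulo the
products of primes which do not divide a fixed number, a sieve applies, and all the multiples have a thin large spectrum.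
The argument of the starting files for digits whose blocks can be exchanged (`Pool.Agent.N625.PT.X1`, ..., helper625) then
carries over (`Pool.Agent.Run7.h927.SV.X2`, ...).

Examples of random fields, proved in `Pool.Agent.N213.GF.E` and `Pool.Agent.N213.GF.F`: the uniform distribution on the
solutions of local constraints with flexible digits on a graph of positions with degrees at most `Δ`, with
`η = 1 / b ^ (Δ + 1)` (`unif_field`); in particular the integers whose nonzero digits form an independent set of the graph
(`indep_local`), and, for `b ≥ Δ + 2`, the integers whose digits are a proper colouring of the graph (`colour_local`).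

`∑ v ∈ range (b ^ k), (if P v then p v else 0)` is the probability that the random integer `v < b ^ k` with the
distribution `p` has the property `P`.
-/

set_option autoImplicit false

open Finset

namespace Pool.Agent.Results.MP_5d7b92_nt.DigitLawMultiples

/-- The digits `a < b` act on the set `X` of the vertices: an edge with the label `a` leads from `x` to `y` if
`δ x a = some y` (at most one edge with the label `a` starts at `x`). The number of the edges from `x` to `y` equals the
number of the edges from `y` to `x`, and at least two edges start at every vertex. The graph may be infinite. -/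
structure Graph {X : Type} (b : ℕ) (δ : X → ℕ → Option X) : Prop where
  symm : ∀ x y : X, {a : ℕ | a < b ∧ δ x a = some y}.ncard = {a : ℕ | a < b ∧ δ y a = some x}.ncard
  two : ∀ x : X, ∃ a a' : ℕ, a < a' ∧ a' < b ∧ (δ x a).isSome ∧ (δ x a').isSome

open Classical in
/-- The integers `v < b ^ k` whose `k` digits in base `b`, from the most significant to the least significant one (the
digit number `i`, `0 ≤ i < k`, from the left is `v / b ^ (k - 1 - i) % b`), are the labels of a walk from `x` to `y`. -/
noncomputable def walks {X : Type} (b : ℕ) (δ : X → ℕ → Option X) (k : ℕ) (x y : X) : Finset ℕ :=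
  (range (b ^ k)).filter fun v =>
    ((List.range k).map fun i => v / b ^ (k - 1 - i) % b).foldl (fun s a => s.bind fun z => δ z a) (some x) = some y

/-- `P` is a set of pairs of an opening digit and a closing digit which match each other, `E` is a set of neutral
digits; the digits are smaller than `b`, no digit plays two of the three roles, and there is at least one pair.
(An opening digit can match several closing digits, and conversely.) -/
structure Alphabet (b : ℕ) (P : Finset (ℕ × ℕ)) (E : Finset ℕ) : Prop where
  lt : ∀ p ∈ P, p.1 < b ∧ p.2 < b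
  ne : ∀ p ∈ P, ∀ p' ∈ P, p.1 ≠ p'.2
  neutral : ∀ a ∈ E, a < b ∧ ∀ p ∈ P, a ≠ p.1 ∧ a ≠ p.2
  nonempty : P.Nonempty

/-- The correctly nested words: the empty word; a neutral digit followed by a correctly nested word; and `o u c w`,
where `u` and `w` are correctly nested words and the opening digit `o` matches the closing digit `c`. -/
inductive Balanced (P : Finset (ℕ × ℕ)) (E : Finset ℕ) : List ℕ → Prop
  | nil : Balanced P E []
  | neutral (a : ℕ) (w : List ℕ) : a ∈ E → Balanced P E w → Balanced P E (a :: w)
  | pair (o c : ℕ) (u w : List ℕ) : (o, c) ∈ P → Balanced P E u → Balanced P E w → Balanced P E (o :: (u ++ c :: w))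

open Classical in
/-- The integers `v < b ^ k` whose `k` digits in base `b`, from the most significant to the least significant one (the
digit number `i`, `0 ≤ i < k`, from the left is `v / b ^ (k - 1 - i) % b`), form a correctly nested word. -/
noncomputable def brackets (b : ℕ) (P : Finset (ℕ × ℕ)) (E : Finset ℕ) (k : ℕ) : Finset ℕ :=
  (range (b ^ k)).filter fun v => Balanced P E ((List.range k).map fun i => v / b ^ (k - 1 - i) % b)

/-- The digit of `v` at the position `i` in base `b` (the position `0` is the least significant one). -/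
def dig (b v i : ℕ) : ℕ := v / b ^ i % b

/-- The integer which has the digits of `v` at the positions in `S` and the digits of `w` at the other positions below `k`. -/
def splice (b k : ℕ) (S : Finset ℕ) (v w : ℕ) : ℕ := ∑ i ∈ range k, (if i ∈ S then dig b v i else dig b w i) * b ^ i

/-- `v` and `w` have the same digits outside the set `S` of positions. -/
def Off (b : ℕ) (S : Finset ℕ) (v w : ℕ) : Prop := ∀ i, i ∉ S → dig b v i = dig b w i

open Classical in
/-- The closed neighbourhood of the position `i` in the graph `A` on the positions `0, …, k - 1`. -/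
noncomputable def nb (k : ℕ) (A : ℕ → ℕ → Prop) (i : ℕ) : Finset ℕ := (range k).filter fun j => j = i ∨ A i j

open Classical in
/-- The total weight of the integers below `b ^ k` which have the same digits as `v` outside `S`. -/
noncomputable def mass (b k : ℕ) (p : ℕ → ℝ) (S : Finset ℕ) (v : ℕ) : ℝ :=
  ∑ w ∈ (range (b ^ k)).filter (fun w => Off b S w v), p w

/-- The digits of a random integer `v < b ^ k` (with the probabilities `p v`) form a Markov random field on a graph `A` of
positions with degrees at most `Δ` (the Markov property: for every set `S` of positions and all `v`, `w` which have the same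
digits at the positions outside `S` adjacent to `S`, the product `p v * p w` does not change if `v` and `w` exchange their
digits in `S`), and each digit is flexible: for every `v` with `p v ≠ 0` and every position `i`, there are `x` and `y` which
have the same digits as `v` outside the closed neighbourhood of `i`, which differ from each other exactly at the position
`i`, and whose conditional probabilities, given the digits outside this neighbourhood, are at least `η`. -/
structure Field (b k Δ : ℕ) (η : ℝ) (A : ℕ → ℕ → Prop) (p : ℕ → ℝ) : Prop where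
  symm : ∀ i j, A i j → A j i
  degree : ∀ i < k, (nb k A i).card ≤ Δ + 1
  nonneg : ∀ v, 0 ≤ p v
  sum : ∑ v ∈ range (b ^ k), p v = 1
  markov : ∀ S : Finset ℕ, ∀ v < b ^ k, ∀ w < b ^ k, (∀ i ∈ S, ∀ j < k, j ∉ S → A i j → dig b v j = dig b w j) →
    p v * p w = p (splice b k S v w) * p (splice b k S w v)
  flexible : ∀ v < b ^ k, p v ≠ 0 → ∀ i < k, ∃ x < b ^ k, ∃ y < b ^ k, Off b (nb k A i) x v ∧ Off b {i} y x ∧
    dig b y i ≠ dig b x i ∧ η * mass b k p (nb k A i) v ≤ p x ∧ η * mass b k p (nb k A i) v ≤ p y

open Classical in
/-- The uniform distribution on the finite set `S`. -/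
noncomputable def uniform (S : Finset ℕ) (v : ℕ) : ℝ := if v ∈ S then 1 / (S.card : ℝ) else 0

/-- The families of distributions of a random integer `v < b ^ k` which are considered here (`𝓕 k p` means that the
distribution `p` belongs to the family).
* `walks`: the uniform distribution on the integers whose `k` digits are the labels of a walk from `x₀` to some vertex `y`,
  where the number of the closed walks of length `2n` at `x₀` is at most `ρ ^ (2n)` for all `n`, and the number of the walks
  of length `k` from `x₀` to `y` is at least `ρ ^ k / k ^ D` (all vertices `y` with this property are allowed);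
* `words`: the uniform distribution on the integers whose `k` digits form a correctly nested word;
* `fields`: the digits form a Markov random field with flexible digits, on any graph of positions with degrees at most `Δ`. -/
inductive Law (b : ℕ) : (ℕ → (ℕ → ℝ) → Prop) → Prop
  | walks {X : Type} (δ : X → ℕ → Option X) (x₀ : X) (ρ : ℝ) (D : ℕ) : Graph b δ → 0 < ρ →
      (∀ n : ℕ, ((walks b δ (2 * n) x₀ x₀).card : ℝ) ≤ ρ ^ (2 * n)) →
      Law b fun k p => ∃ y : X, ρ ^ k ≤ (k : ℝ) ^ D * (walks b δ k x₀ y).card ∧ p = uniform (walks b δ k x₀ y)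
  | words (P : Finset (ℕ × ℕ)) (E : Finset ℕ) : Alphabet b P E →
      Law b fun k p => (brackets b P E k).Nonempty ∧ p = uniform (brackets b P E k)
  | fields (Δ : ℕ) (η : ℝ) : 2 ≤ b → 0 < η → Law b fun k p => ∃ A : ℕ → ℕ → Prop, Field b k Δ η A p


/-- the product of `1 - 1/q` over the primes `q ≤ y` -/
noncomputable def V (y : ℕ) : ℝ := ∏ q ∈ (Icc 1 y).filter Nat.Prime, (1 - 1 / (q : ℝ))

/-- the primes `p ≤ x` such that `π(p)` is prime -/
noncomputable def PP (x : ℕ) : Finset ℕ := (Icc 1 x).filter (fun p => p.Prime ∧ (Nat.primeCounting p).Prime)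

/-- the multiple of the product of the primes `≤ y` given by the integers `h` and `c + κ v` -/
def Nv (y h : ℕ) (c κ : ℤ) (v : ℕ) : ℤ := ((primorial y * h : ℕ) : ℤ) * (c + κ * v)

/-- the `u ∈ S` such that `n - u` is prime -/
def Rep (S : Finset ℕ) (n : ℤ) : Finset ℕ := S.filter (fun u : ℕ => (n - u).toNat.Prime)

lemma bal_iff (P : Finset (ℕ × ℕ)) (E : Finset ℕ) (w : List ℕ) : Balanced P E w ↔ Pool.Agent.N625.DY.Balanced P E w := by
  constructor
  · intro h
    induction h with
    | nil => exact .nil
    | neutral a w h1 _ ih => exact .neutral a w h1 ih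
    | pair o c u w h1 _ _ ih1 ih2 => exact .pair o c u w h1 ih1 ih2
  · intro h
    induction h with
    | nil => exact .nil
    | neutral a w h1 _ ih => exact .neutral a w h1 ih
    | pair o c u w h1 _ _ ih1 ih2 => exact .pair o c u w h1 ih1 ih2

lemma brackets_eq (b : ℕ) (P : Finset (ℕ × ℕ)) (E : Finset ℕ) (k : ℕ) :
    brackets b P E k = Pool.Agent.N625.DY.brackets b P E k := by
  classical
  unfold brackets Pool.Agent.N625.DY.brackets Pool.Agent.N625.DY.word
  ext v
  rw [mem_filter, mem_filter, bal_iff]

lemma field_conv {b k Δ : ℕ} {η : ℝ} {A : ℕ → ℕ → Prop} {p : ℕ → ℝ} (h : Field b k Δ η A p) :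
    Pool.Agent.N213.GF.Field b k Δ η A p :=
  ⟨h.symm, h.degree, h.nonneg, h.sum, h.markov, h.flexible⟩

theorem siev_of {b : ℕ} {𝓕 : ℕ → (ℕ → ℝ) → Prop} (h : Law b 𝓕) : ∃ L, Pool.Agent.Run7.h927.SV.Siev b L 𝓕 := by
  rcases h with ⟨δ, x₀, ρ, D, hG, hρ, hR⟩ | ⟨P, E, hA⟩ | ⟨Δ, η, hb, hη⟩
  · refine Pool.Agent.Run7.h927.SV.w_siev (δ := δ) ⟨hG.symm, hG.two⟩ x₀ ρ hρ hR D _ ?_
    rintro k p ⟨y, h1, rfl⟩
    exact ⟨y, h1, rfl⟩
  · have hA' : Pool.Agent.N625.DY.Alphabet b P E := ⟨hA.lt, hA.ne, hA.neutral, hA.nonempty⟩
    refine Pool.Agent.Run7.h927.SV.br_siev hA' _ ?_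
    rintro k p ⟨h1, rfl⟩
    rw [brackets_eq] at h1 ⊢
    refine ⟨?_, rfl⟩
    by_contra h2
    rw [Pool.Agent.N625.DY.br_empty k h2] at h1
    exact Finset.not_nonempty_empty h1
  · refine Pool.Agent.Run7.h927.SV.gf_siev b Δ η hb hη _ ?_
    rintro k p ⟨A, hF⟩
    exact ⟨A, field_conv hF⟩

open Classical in
/-- Let `𝓕` be one of the families of distributions in `Law b` (digits which label walks in a graph; correctly nested words;
Markov random fields), let `v < b ^ k` be a random integer whose distribution `p` belongs to the family, let `y` be between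
`K₀ log k` and `K₁ log k`, `M` the product of the primes `≤ y`, and `X` an integer with `b ^ k ≤ X k ^ C`,
`X ≤ b ^ k k ^ C`. Then for all `|c| ≤ B b ^ k` and all `1 ≤ h ≤ k ^ J` the random integer `N = M h (c + κ v)` has the
following properties: (1) for every set `S` of at least `X / k ^ A` primes `≤ X`, the probability that `N > X` and that
`N - q` is prime for fewer than `(1 - ε) #S / (V y log b ^ k)` elements `q` of `S` is at most `ε`; (2) there are at least
`X / (8 log ^ 2 X)` primes `q ≤ X` with `π(q)` prime, and the conclusion of (1) holds for the set of all of them. -/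
theorem result : ∀ (b : ℕ) (𝓕 : ℕ → (ℕ → ℝ) → Prop), Law b 𝓕 → ∀ κ : ℤ, κ ≠ 0 →
    ∀ (B J A C : ℕ) (ε : ℝ), 0 < ε → ε ≤ 1 → ∃ K₀ : ℕ, ∀ K₁ : ℕ, ∃ k₀ : ℕ, ∀ k : ℕ, k₀ ≤ k →
    ∀ p : ℕ → ℝ, 𝓕 k p → ∀ y : ℕ, K₀ * Real.log k ≤ y → y ≤ K₁ * Real.log k →
    ∀ c : ℤ, |c| ≤ B * (b : ℤ) ^ k → ∀ h : ℕ, 1 ≤ h → h ≤ k ^ J → ∀ X : ℕ, b ^ k ≤ X * k ^ C → X ≤ b ^ k * k ^ C →
      (∀ S : Finset ℕ, S ⊆ Icc 1 X → (∀ q ∈ S, q.Prime) → (X : ℝ) ≤ S.card * (k : ℝ) ^ A →
        ∑ v ∈ range (b ^ k), (if (X : ℤ) < Nv y h c κ v ∧ ((Rep S (Nv y h c κ v)).card : ℝ) <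
          (1 - ε) * (S.card / (V y * (k * Real.log b))) then p v else 0) ≤ ε) ∧
      (X : ℝ) / (8 * Real.log X ^ 2) ≤ ((PP X).card : ℝ) ∧
      ∑ v ∈ range (b ^ k), (if (X : ℤ) < Nv y h c κ v ∧ ((Rep (PP X) (Nv y h c κ v)).card : ℝ) <
          (1 - ε) * ((PP X).card / (V y * (k * Real.log b))) then p v else 0) ≤ ε := by
  classical
  intro b 𝓕 hF κ hκ B J A C ε hε hε1
  obtain ⟨L, hS⟩ := siev_of hF
  have hb := hS.two
  obtain ⟨K₀, h0⟩ := Pool.Agent.Run7.h927.SV.dense_sum hS κ hκ B J (max A 5) C ε hε hε1
  refine ⟨K₀, fun K₁ => ?_⟩
  obtain ⟨k₀, h0⟩ := h0 K₁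
  obtain ⟨k₁, h1⟩ := Pool.Agent.N625.PT.PP_dense b C hb
  refine ⟨max (max k₀ k₁) 1, fun k hk p hp y hy1 hy2 c hc h hh1 hhJ X hX1 hX2 => ?_⟩
  have b0 : 1 ≤ k := by omega
  have hkr : (1 : ℝ) ≤ k := by exact_mod_cast b0
  have hflex := hp
  have main : ∀ S : Finset ℕ, S ⊆ Icc 1 X → (∀ q ∈ S, q.Prime) → (X : ℝ) ≤ S.card * (k : ℝ) ^ (max A 5) →
        ∑ v ∈ range (b ^ k), (if (X : ℤ) < Nv y h c κ v ∧ ((Rep S (Nv y h c κ v)).card : ℝ) <
          (1 - ε) * (S.card / (V y * (k * Real.log b))) then p v else 0) ≤ ε := by
    intro S hS hSp hSA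
    refine le_trans (le_of_eq ?_) (h0 k (by omega) p hflex y hy1 hy2 c hc h hh1 hhJ X hX1 hX2 S hS hSp hSA)
    apply sum_congr rfl
    intro v _
    congr!
  obtain ⟨h2, h3⟩ := h1 k (by omega) X hX1 hX2
  refine ⟨fun S hS hSp hSA => main S hS hSp (hSA.trans ?_), h2, main (PP X) (filter_subset _ _)
    (fun q hq => (mem_filter.1 hq).2.1) ?_⟩
  · apply mul_le_mul_of_nonneg_left _ (Nat.cast_nonneg _)
    exact pow_le_pow_right₀ hkr (le_max_left _ _)
  · refine h3.trans ?_
    apply mul_le_mul_of_nonneg_left _ (Nat.cast_nonneg _)
    exact pow_le_pow_right₀ hkr (le_max_right _ _)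

end Pool.Agent.Results.MP_5d7b92_nt.DigitLawMultiples
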