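import Pool.Agent.Run7.h582.MC.MC4

/-!
# Goldbach representations, one prime in an arbitrary dense set of primes, of multiples of a small primorial and of
# the integers near the dilates `lam x + c` of most points `x` with respect to a measure with polynomial Fourier decay

Here `x` is random with respect to an ARBITRARY finite Borel measure `μ` with bounded support whose Fourier transform is
`O (|ξ| ^ (-δ))` for some `δ > 0`: such measures can be singular and live on sets of an arbitrarily small positive Hausdorff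
dimension (for example Salem sets, images of Brownian motion, the well approximable numbers). The multiples of ALL the integers
within `D` of `lam x + c` are considered at once, for all large real `lam` and all `|c| ≤ B lam`.

The starting results treat almost all multiples (`AlmostAllMultiples`) and integers with random digits (`ExchangeableMultiples`);
later files other laws of random digits (`DigitLawMultiples`, `WordMultiples`, `DeterminantalMultiples`).

Method: the measure is replaced by finite families of real numbers with the same exponential sums (`Pool.Agent.Run7.h582.FM`);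
the integer parts of the members of such a family are equidistributed modulo all the moduli which are not too large, and all their
multiples have a thin large spectrum (with helper844's files, `Pool.Agent.Run7.h844.RP`), so that the sieve and circle method of
the starting files (`Pool.Agent.N625.PT.X1`, ..., in helper927's form for classes of distributions, `Pool.Agent.Run7.h927.SV.X7`)
apply to them (`Pool.Agent.Run7.h582.MC`).
-/

set_option autoImplicit false
set_option maxHeartbeats 4000000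

open Finset MeasureTheory

namespace Pool.Agent.Results.MP_5d7b92_nt.FourierDecayMultiples

/-- `μ` is a finite Borel measure with bounded support and its Fourier transform `ξ ↦ ∫ exp (i ξ t) dμ (t)` is
`O (|ξ| ^ (-δ))` for some `δ > 0`. -/
def FourierDecay (μ : Measure ℝ) : Prop :=
  IsFiniteMeasure μ ∧ (∃ R : ℝ, μ (Set.Icc (-R) R)ᶜ = 0) ∧ ∃ C δ : ℝ, 0 < δ ∧ ∀ ξ : ℝ, ξ ≠ 0 →
    ‖∫ t : ℝ, Complex.exp (((ξ * t : ℝ) : ℂ) * Complex.I) ∂μ‖ ≤ C * |ξ| ^ (-δ)

/-- the product of `1 - 1/q` over the primes `q ≤ y` -/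
noncomputable def V (y : ℕ) : ℝ := ∏ q ∈ (Icc 1 y).filter Nat.Prime, (1 - 1 / (q : ℝ))

/-- the primes `p ≤ x` such that `π(p)` is prime -/
noncomputable def PP (x : ℕ) : Finset ℕ := (Icc 1 x).filter (fun p => p.Prime ∧ (Nat.primeCounting p).Prime)

/-- the multiple of `q` by `h` times the product of the primes `≤ y` -/
def Nq (y h : ℕ) (q : ℤ) : ℤ := ((primorial y * h : ℕ) : ℤ) * q

/-- the `u ∈ S` such that `n - u` is prime -/
def Rep (S : Finset ℕ) (n : ℤ) : Finset ℕ := S.filter (fun u : ℕ => (n - u).toNat.Prime)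

/-- Let `μ` be a measure with `FourierDecay`. For all `B`, `D`, `J`, `A`, `C` and `0 < ε ≤ 1` there is `K₀` such that for every
`K₁` and all large `lam` the following holds for all `|c| ≤ B lam`, all `y` between `K₀ log log lam` and `K₁ log log lam`, all
`1 ≤ h ≤ log ^ J lam` and all integers `X` with `lam ≤ X log ^ C lam`, `X ≤ lam log ^ C lam`. Let `M` be the product of the
primes `≤ y`. (1) For every set `S` of at least `X / log ^ A lam` primes `≤ X`, for all `x` outside a set of `μ`-measure at most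
`ε`, ALL the multiples `N = M h q`, `N > X`, of the integers `q` within `D` of `lam x + c` have at least
`(1 - ε) #S / (V y log lam)` representations `N = u + v`, `u ∈ S` and `v` a prime. (2) There are at least `X / (8 log ^ 2 X)`
primes `u ≤ X` with `π(u)` prime, and the conclusion of (1) holds for the set of all of them. -/
theorem result (μ : Measure ℝ) (hμ : FourierDecay μ) : ∀ (B : ℝ) (D J A C : ℕ) (ε : ℝ), 0 < ε → ε ≤ 1 →
    ∃ K₀ : ℕ, ∀ K₁ : ℕ, ∃ Λ₀ : ℝ, 1 ≤ Λ₀ ∧ ∀ lam : ℝ, Λ₀ ≤ lam → ∀ c : ℝ, |c| ≤ B * lam →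
    ∀ y : ℕ, K₀ * Real.log (Real.log lam) ≤ y → y ≤ K₁ * Real.log (Real.log lam) →
    ∀ h : ℕ, 1 ≤ h → (h : ℝ) ≤ Real.log lam ^ J → ∀ X : ℕ, lam ≤ X * Real.log lam ^ C → (X : ℝ) ≤ lam * Real.log lam ^ C →
      (∀ S : Finset ℕ, S ⊆ Icc 1 X → (∀ u ∈ S, u.Prime) → (X : ℝ) ≤ S.card * Real.log lam ^ A →
        μ.real {x | ¬ ∀ q : ℤ, |(q : ℝ) - (lam * x + c)| ≤ D → (X : ℤ) < Nq y h q →
          (1 - ε) * (S.card / (V y * Real.log lam)) ≤ ((Rep S (Nq y h q)).card : ℝ)} ≤ ε) ∧
      (X : ℝ) / (8 * Real.log X ^ 2) ≤ ((PP X).card : ℝ) ∧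
      μ.real {x | ¬ ∀ q : ℤ, |(q : ℝ) - (lam * x + c)| ≤ D → (X : ℤ) < Nq y h q →
          (1 - ε) * ((PP X).card / (V y * Real.log lam)) ≤ ((Rep (PP X) (Nq y h q)).card : ℝ)} ≤ ε := by
  intro B D J A C ε hε hε1
  obtain ⟨K₀, h0⟩ := Pool.Agent.Run7.h582.MC.ae_dense μ hμ B D J (max A 10) C ε hε hε1
  refine ⟨K₀, fun K₁ => ?_⟩
  obtain ⟨Λ₀, hΛ1, h0⟩ := h0 K₁
  obtain ⟨k₁, h1⟩ := Pool.Agent.N625.PT.PP_dense 2 (C + 1) le_rfl
  obtain ⟨Λ₁, hΛ2, h2⟩ := Pool.Agent.Run7.h582.MC.band C k₁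
  obtain ⟨Λ₂, hΛ3⟩ : ∃ Λ₂ : ℝ, Λ₂ = max (max Λ₀ Λ₁) (Real.exp 1) := ⟨_, rfl⟩
  have a0 : Λ₀ ≤ Λ₂ := by rw [hΛ3]; exact (le_max_left _ _).trans (le_max_left _ _)
  have a1 : Λ₁ ≤ Λ₂ := by rw [hΛ3]; exact (le_max_right _ _).trans (le_max_left _ _)
  have a2 : Real.exp 1 ≤ Λ₂ := by rw [hΛ3]; exact le_max_right _ _
  refine ⟨Λ₂, hΛ1.trans a0, fun lam hlam c hc y hy1 hy2 h hh1 hhJ X hX1 hX2 => ?_⟩
  have hlam0 : 0 < lam := (Real.exp_pos 1).trans_le (a2.trans hlam)
  have hT1 : 1 ≤ Real.log lam := (Real.le_log_iff_exp_le hlam0).2 (a2.trans hlam)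
  have main : ∀ S : Finset ℕ, S ⊆ Icc 1 X → (∀ u ∈ S, u.Prime) → (X : ℝ) ≤ S.card * Real.log lam ^ (max A 10) →
        μ.real {x | ¬ ∀ q : ℤ, |(q : ℝ) - (lam * x + c)| ≤ D → (X : ℤ) < Nq y h q →
          (1 - ε) * (S.card / (V y * Real.log lam)) ≤ ((Rep S (Nq y h q)).card : ℝ)} ≤ ε :=
    fun S hS hSp hSA => h0 lam (a0.trans hlam) c hc y hy1 hy2 h hh1 hhJ X hX1 hX2 S hS hSp hSA
  obtain ⟨k, hk, g1, g2, g3⟩ := h2 lam (a1.trans hlam) X hX1 hX2
  obtain ⟨h3, h4⟩ := h1 k hk X g1 g2
  refine ⟨fun S hS hSp hSA => main S hS hSp (hSA.trans ?_), h3, main (PP X) (filter_subset _ _)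
    (fun q hq => (mem_filter.1 hq).2.1) ?_⟩
  · apply mul_le_mul_of_nonneg_left _ (Nat.cast_nonneg _)
    exact pow_le_pow_right₀ hT1 (le_max_left _ _)
  · refine h4.trans ?_
    apply mul_le_mul_of_nonneg_left _ (Nat.cast_nonneg _)
    calc (k : ℝ) ^ 5 ≤ (Real.log lam ^ 2) ^ 5 := pow_le_pow_left₀ (Nat.cast_nonneg _) g3 5
      _ = Real.log lam ^ 10 := by ring
      _ ≤ _ := pow_le_pow_right₀ hT1 (le_max_right _ _)

end Pool.Agent.Results.MP_5d7b92_nt.FourierDecayMultiples
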