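import Pool.Agent.N625.PT.X8
import Pool.Agent.Run7.h672.XC.X7

/-!
# Goldbach representations of random multiples of a small primorial, one prime in an arbitrary set of primes, for the random integers written by independent random words

The definitions `len`, `Words`, `cat`, `noRest`, `cutWord`, `WordLaw` are in `Pool.Agent.Run7.h672.CC.Defs`.

Method: a strong renewal theorem for the places at which a word ends; between two such places, at a positive proportion of
the places, two words which do not commute can be exchanged (`w w'` and `w' w` have the same length, the same probability,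
and different digits), whatever the language is; hence the characteristic function is exponentially small in the number of the
places at which the frequency is not close to a rational number with a small denominator (`Pool.Agent.Run7.h672.CC`). With this
input the sieve and the circle method of the starting library for exchangeable blocks (`Pool.Agent.N625.PT`) go through
(`Pool.Agent.Run7.h672.XC`).
-/

set_option autoImplicit false

open Finset
open Pool.Agent.Run7.h672.CC

namespace Pool.Agent.Results.MP_5d7b92_nt.WordMultiples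

/-- the product of `1 - 1/q` over the primes `q ≤ y` -/
noncomputable def V (y : ℕ) : ℝ := ∏ q ∈ (Icc 1 y).filter Nat.Prime, (1 - 1 / (q : ℝ))

/-- the primes `p ≤ x` such that `π(p)` is prime -/
noncomputable def PP (x : ℕ) : Finset ℕ := (Icc 1 x).filter (fun p => p.Prime ∧ (Nat.primeCounting p).Prime)

/-- the multiple of the product of the primes `≤ y` given by the integers `h` and `c + κ v` -/
def Nv (y h : ℕ) (c κ : ℤ) (v : ℕ) : ℤ := ((primorial y * h : ℕ) : ℤ) * (c + κ * v)

/-- the `u ∈ S` such that `n - u` is prime -/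
def Rep (S : Finset ℕ) (n : ℤ) : Finset ℕ := S.filter (fun u : ℕ => (n - u).toNat.Prime)

/-- Let `W` be the law of a random word in base `b` (`Words b W`: any language, finite or infinite, lengths with an exponential
moment and without a common divisor, and two words which do not commute), and let `v < b ^ k` be the random integer whose
digits are written by independent random words with the law `W`, conditioned on the total length `k`, or cut after `k`
digits (`WordLaw b W k p`). Let `y` be between `K₀ log k` and `K₁ log k`, `M` the product of the primes `≤ y`, and `X` an integer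
with `b ^ k ≤ X k ^ C`, `X ≤ b ^ k k ^ C`. Then for all `|c| ≤ B b ^ k` and all `1 ≤ h ≤ k ^ J` the random integer
`N = M h (c + κ v)` has the following properties: (1) for every set `S` of at least `X / k ^ A` primes `≤ X`, the probability
that `N > X` and that `N - q` is prime for fewer than `(1 - ε) #S / (V y log b ^ k)` elements `q` of `S` is at most `ε`;
(2) there are at least `X / (8 log ^ 2 X)` primes `q ≤ X` with `π(q)` prime, and the conclusion of (1) holds for the set of
all of them. -/
theorem result : ∀ (b : ℕ) (W : ℕ → ℕ → ℝ), Words b W → ∀ κ : ℤ, κ ≠ 0 →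
    ∀ (B J A C : ℕ) (ε : ℝ), 0 < ε → ε ≤ 1 → ∃ K₀ : ℕ, ∀ K₁ : ℕ, ∃ k₀ : ℕ, ∀ k : ℕ, k₀ ≤ k →
    ∀ p : ℕ → ℝ, WordLaw b W k p → ∀ y : ℕ, K₀ * Real.log k ≤ y → y ≤ K₁ * Real.log k →
    ∀ c : ℤ, |c| ≤ B * (b : ℤ) ^ k → ∀ h : ℕ, 1 ≤ h → h ≤ k ^ J → ∀ X : ℕ, b ^ k ≤ X * k ^ C → X ≤ b ^ k * k ^ C →
      (∀ S : Finset ℕ, S ⊆ Icc 1 X → (∀ q ∈ S, q.Prime) → (X : ℝ) ≤ S.card * (k : ℝ) ^ A →
        ∑ v ∈ range (b ^ k), (if (X : ℤ) < Nv y h c κ v ∧ ((Rep S (Nv y h c κ v)).card : ℝ) <
          (1 - ε) * (S.card / (V y * (k * Real.log b))) then p v else 0) ≤ ε) ∧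
      (X : ℝ) / (8 * Real.log X ^ 2) ≤ ((PP X).card : ℝ) ∧
      ∑ v ∈ range (b ^ k), (if (X : ℤ) < Nv y h c κ v ∧ ((Rep (PP X) (Nv y h c κ v)).card : ℝ) <
          (1 - ε) * ((PP X).card / (V y * (k * Real.log b))) then p v else 0) ≤ ε := by
  classical
  intro b W hW κ hκ B J A C ε hε hε1
  obtain ⟨L, T, hcls⟩ := Pool.Agent.Run7.h672.XC.word_rcls hW
  have hb := hW.two
  obtain ⟨K₀, h0⟩ := Pool.Agent.Run7.h672.XC.dense_sum hcls κ hκ B J (max A 5) C ε hε hε1
  refine ⟨K₀, fun K₁ => ?_⟩
  obtain ⟨k₀, h0⟩ := h0 K₁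
  obtain ⟨k₁, h1⟩ := Pool.Agent.N625.PT.PP_dense b C hb
  refine ⟨max (max k₀ k₁) 1, fun k hk p hp y hy1 hy2 c hc h hh1 hhJ X hX1 hX2 => ?_⟩
  have b0 : 1 ≤ k := by omega
  have hkr : (1 : ℝ) ≤ k := by exact_mod_cast b0
  have hflex := hp
  have main : ∀ S : Finset ℕ, S ⊆ Icc 1 X → (∀ q ∈ S, q.Prime) → (X : ℝ) ≤ S.card * (k : ℝ) ^ (max A 5) →
        ∑ v ∈ range (b ^ k), (if (X : ℤ) < Nv y h c κ v ∧ ((Rep S (Nv y h c κ v)).card : ℝ) <
          (1 - ε) * (S.card / (V y * (k * Real.log b))) then p v else 0) ≤ ε := by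
    intro S hS hSp hSA
    refine le_trans (le_of_eq ?_) (h0 k (by omega) p hflex y hy1 hy2 c hc h hh1 hhJ X hX1 hX2 S hS hSp hSA)
    apply sum_congr rfl
    intro v _
    congr!
  obtain ⟨h2, h3⟩ := h1 k (by omega) X hX1 hX2
  refine ⟨fun S hS hSp hSA => main S hS hSp (hSA.trans ?_), h2, main (PP X) (filter_subset _ _)
    (fun q hq => (mem_filter.1 hq).2.1) ?_⟩
  · apply mul_le_mul_of_nonneg_left _ (Nat.cast_nonneg _)
    exact pow_le_pow_right₀ hkr (le_max_left _ _)
  · refine h3.trans ?_
    apply mul_le_mul_of_nonneg_left _ (Nat.cast_nonneg _)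
    exact pow_le_pow_right₀ hkr (le_max_right _ _)

end Pool.Agent.Results.MP_5d7b92_nt.WordMultiples
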